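import Pool.Agent.Helper91.KZ.StM

namespace Pool.Agent.Helper2.KZ

open Pool.Agent.Helper91.KZ Polynomial TensorProduct

universe u

/-- a finite-dimensional algebra that embeds in a division ring -/
theorem CYB_dv (F A Δ : Type u) [Field F] [Ring A] [Algebra F A] [FiniteDimensional F A]
    [DivisionRing Δ] [Algebra F Δ] (f : A →ₐ[F] Δ) (hf : Function.Injective f) : DV A := by
  have hn : Nontrivial A := by
    refine ⟨0, 1, fun h => ?_⟩
    have h2 := congrArg f h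
    rw [map_zero, map_one] at h2
    exact zero_ne_one h2
  have : NoZeroDivisors A := ⟨fun {x y} hxy => by
    have h2 := congrArg f hxy
    rw [map_mul, map_zero] at h2
    rcases mul_eq_zero.mp h2 with h | h
    · exact Or.inl (hf (by rw [h, map_zero]))
    · exact Or.inr (hf (by rw [h, map_zero]))⟩
  have : IsDomain A := NoZeroDivisors.to_isDomain A
  exact ⟨one_ne_zero, fun x hx => FiniteDimensional.isUnit F hx⟩

theorem CYB (hCYD : ST_CYD.{u}) (hDVS : ST_DVS.{u}) (hIDD : ST_IDD.{u}) (hTWF : ST_TWF.{u})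
    (hMMI : ST_MMI.{u}) : ST_CYB.{u} := by
  intro E K E' K' _ _ _ _ _ _ _ _ _ p j hp
  induction j generalizing K K' with
  | zero =>
    intro hK hMI
    obtain ⟨e⟩ := (hDVS E').2.1 _ _ hMI
    have hK1 : Module.finrank E K = 1 := hK
    show Module.finrank E' K' = 1
    rw [← e.toLinearEquiv.finrank_eq, Module.finrank_baseChange]
    exact hK1
  | succ j ih =>
    intro hK hMI
    obtain ⟨e⟩ := (hDVS E').2.1 _ _ hMI
    obtain ⟨K₁, K₂, _, _, _, _, hK₁, hK₂, ⟨T, _, _, hT, hTp, ⟨i⟩⟩, ⟨eK⟩⟩ := hK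
    obtain ⟨m⟩ := (hMMI E E').2.2.2.1 K₂ K₁
    have hCD₁ : CD E K₁ (p ^ j) := hCYD E K₁ p j hp hK₁
    have : FiniteDimensional E K₁ := hCD₁.2.2.1
    have : FiniteDimensional E K₂ := hK₂.2.2.1
    -- the product
    let e1 : E' ⊗[E] (K₁ ⊗[E] K₂) ≃ₐ[E'] E' ⊗[E] K :=
      Algebra.TensorProduct.congr AlgEquiv.refl eK
    let ψ : (E' ⊗[E] K₁) ⊗[E'] (E' ⊗[E] K₂) ≃ₐ[E'] K' := (m.symm.trans e1).trans e
    have inj₁ : Function.Injective (Algebra.TensorProduct.includeLeft :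
        (E' ⊗[E] K₁) →ₐ[E'] (E' ⊗[E] K₁) ⊗[E'] (E' ⊗[E] K₂)) :=
      Algebra.TensorProduct.includeLeft_injective (algebraMap E' (E' ⊗[E] K₂)).injective
    have inj₂ : Function.Injective (Algebra.TensorProduct.includeRight :
        (E' ⊗[E] K₂) →ₐ[E'] (E' ⊗[E] K₁) ⊗[E'] (E' ⊗[E] K₂)) :=
      Algebra.TensorProduct.includeRight_injective (algebraMap E' (E' ⊗[E] K₁)).injective
    have hDV₁ : DV (E' ⊗[E] K₁) := CYB_dv E' _ K' (ψ.toAlgHom.comp
      Algebra.TensorProduct.includeLeft) (ψ.injective.comp inj₁)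
    have hDV₂ : DV (E' ⊗[E] K₂) := CYB_dv E' _ K' (ψ.toAlgHom.comp
      Algebra.TensorProduct.includeRight) (ψ.injective.comp inj₂)
    obtain ⟨L₁, _, _, ⟨f₁⟩⟩ := (hDVS E').2.2.2 _ hDV₁
    obtain ⟨L₂, _, _, ⟨f₂⟩⟩ := (hDVS E').2.2.2 _ hDV₂
    have hMI₁ : MI E' (E' ⊗[E] K₁) L₁ 1 := (hDVS E').2.2.1 _ _ ⟨f₁⟩
    have hMI₂ : MI E' (E' ⊗[E] K₂) L₂ 1 := (hDVS E').2.2.1 _ _ ⟨f₂⟩
    have hCYS₁ : CYS p E' j L₁ := ih K₁ L₁ hK₁ hMI₁
    have hCD₂ : CD E' L₂ p := by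
      obtain ⟨_, n', hn', h⟩ := hIDD E K₂ E' L₂ p 1 hK₂ hMI₂
      rw [one_mul] at hn'
      rw [hn']
      exact h
    have : FiniteDimensional E T := FiniteDimensional.of_finrank_pos (by
      rw [hTp]; exact hp.pos)
    obtain ⟨σ, hσ⟩ : ∃ σ : T ≃ₐ[E] T, σ ≠ 1 := by
      by_contra hcon
      push Not at hcon
      have h1 := IsGalois.card_aut_eq_finrank E T
      have : Subsingleton (T ≃ₐ[E] T) := ⟨fun a b => by rw [hcon a, hcon b]⟩
      rw [hTp, Nat.card_unique] at h1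
      exact hp.one_lt.ne h1
    let iT : E' ⊗[E] T →ₐ[E'] E' ⊗[E] K₂ := Algebra.TensorProduct.map (AlgHom.id E' E') i
    have hiT : Function.Injective iT :=
      Module.Flat.lTensor_preserves_injective_linearMap (M := E') i.toLinearMap
        i.toRingHom.injective
    obtain ⟨hw1, hw2⟩ := hTWF E T E' p σ hp hTp hσ
    have hemp : IsEmpty (T →ₐ[E] E') := by
      rw [← not_nonempty_iff]
      intro hne
      obtain ⟨_, x, y, hx, hy, hxy⟩ := hw1 hne
      have hxy' : f₂ (iT x) * f₂ (iT y) = 0 := by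
        rw [← map_mul, ← map_mul, hxy, map_zero, map_zero]
      rcases mul_eq_zero.mp hxy' with h | h
      · exact hx (hiT (f₂.injective (by rw [h, map_zero, map_zero])))
      · exact hy (hiT (f₂.injective (by rw [h, map_zero, map_zero])))
    obtain ⟨T', _, _, σ', e', hC⟩ := hw2 hemp
    refine ⟨L₁, L₂, _, _, _, _, hCYS₁, hCD₂, ⟨T', _, _, hC.gal, hC.deg, ⟨?_⟩⟩, ⟨?_⟩⟩
    · exact (f₂.toAlgHom.comp iT).comp e'.symm.toAlgHom
    · exact (Algebra.TensorProduct.congr f₁.symm f₂.symm).trans ψ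

end Pool.Agent.Helper2.KZ
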